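import Pool.Agent.H15.G.R_seed8.TH745.MN.Tb

/-! Job MN-8: the tube at the node `i` of the curve `y ^ 2 = (1 + x) ∏ ((x - c i) ^ 2 - 4 t ^ (ℓ i))`
(helper695). -/

set_option autoImplicit false

namespace Pool.Agent.TH695.MN

open Pool.Agent.TH745.MN Pool.Agent.TH603.EL Pool.Agent.TH603.EL.Scal2 Pool.Agent.TH793.NG

section gen
variable {F : Type} [Field F] {T : Type} [CommRing T]

/-- a map that is additive and multiplicative on a part of the ring -/
structure Ed (M : HR F → Prop) (E : HR F → T) (ι : F →+* T) : Prop where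
  add : ∀ x y, M x → M y → M (x + y) ∧ E (x + y) = E x + E y
  mul : ∀ x y, M x → M y → M (x * y) ∧ E (x * y) = E x * E y
  inc : ∀ k : HK F, Low k 0 → M (incl k) ∧ E (incl k) = ι (k.coeff 0)

variable {M : HR F → Prop} {E : HR F → T} {ι : F →+* T}

theorem Ed.one (h : Ed M E ι) : M 1 ∧ E 1 = 1 := by
  have := h.inc 1 low_one
  simpa using this

theorem Ed.sub (h : Ed M E ι) {x y : HR F} (hx : M x) (hy : M y) :
    M (x - y) ∧ E (x - y) = E x - E y := by
  have h1 := h.inc (-1) low_one.neg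
  have h2 := h.mul _ y h1.1 hy
  have h3 := h.add x _ hx h2.1
  have e : x + incl (-1) * y = x - y := by rw [map_neg, map_one]; ring
  rw [e] at h3
  refine ⟨h3.1, ?_⟩
  have e2 : ((-1 : HK F)).coeff 0 = -1 := by
    rw [HahnSeries.coeff_neg, HahnSeries.coeff_one, if_pos rfl]
  rw [h3.2, h2.2, h1.2, e2, map_neg, map_one]
  ring

theorem Ed.sq (h : Ed M E ι) {x : HR F} (hx : M x) : M (x ^ 2) ∧ E (x ^ 2) = E x ^ 2 := by
  have := h.mul x x hx hx
  rw [_root_.sq, _root_.sq]; exact this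

theorem Ed.prod (h : Ed M E ι) {κ : Type} (s : Finset κ) (f : κ → HR F) (g : κ → T)
    (hf : ∀ k ∈ s, M (f k) ∧ E (f k) = g k) :
    M (∏ k ∈ s, f k) ∧ E (∏ k ∈ s, f k) = ∏ k ∈ s, g k := by
  classical
  induction s using Finset.induction_on with
  | empty => simpa using h.one
  | insert k s hk ih =>
    rw [Finset.prod_insert hk, Finset.prod_insert hk]
    obtain ⟨h1, h2⟩ := hf k (Finset.mem_insert_self _ _)
    obtain ⟨h3, h4⟩ := ih fun j hj => hf j (Finset.mem_insert_of_mem hj)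
    have := h.mul _ _ h1 h3
    rw [h2, h4] at this
    exact this

/-- the cofactor of the node `i` -/
noncomputable def cof {r : ℕ} (ell : Fin r → ℝ) (i : Fin r) (xx : HR F) : HR F :=
  (1 + xx) * ∏ j ∈ Finset.univ.erase i, ((xx - incl (HahnSeries.C (cc F j))) ^ 2 -
    incl (4 * HahnSeries.single (ell j) (1 : F)))

theorem low_C (c : F) : Low (HahnSeries.C c : HK F) 0 := low_single _ _

theorem low_four {l : ℝ} (_hl : 0 ≤ l) : Low (4 * HahnSeries.single l (1 : F) : HK F) l := by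
  have h4 : (4 : HK F) = HahnSeries.C (4 : F) := (map_ofNat HahnSeries.C 4).symm
  rw [h4]
  have := (low_C (4 : F)).mul (low_single l (1 : F))
  simpa using this

theorem cof_E (h : Ed M E ι) {r : ℕ} {ell : Fin r → ℝ} (hell : ∀ i, 0 < ell i) (i : Fin r)
    {xx : HR F} (hx : M xx) : M (cof ell i xx) ∧ E (cof ell i xx) =
      (1 + E xx) * ∏ j ∈ Finset.univ.erase i, (E xx - ι (cc F j)) ^ 2 := by
  unfold cof
  obtain ⟨h1, h2⟩ := h.add _ _ h.one.1 hx
  rw [h.one.2] at h2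
  obtain ⟨h3, h4⟩ := h.prod (Finset.univ.erase i)
    (fun j => (xx - incl (HahnSeries.C (cc F j))) ^ 2 -
      incl (4 * HahnSeries.single (ell j) (1 : F))) (fun j => (E xx - ι (cc F j)) ^ 2) (by
      intro j _
      obtain ⟨g1, g2⟩ := h.inc (HahnSeries.C (cc F j)) (low_C _)
      obtain ⟨g3, g4⟩ := h.sub hx g1
      obtain ⟨g5, g6⟩ := h.sq g3
      obtain ⟨g7, g8⟩ := h.inc (4 * HahnSeries.single (ell j) (1 : F))
        ((low_four (hell j).le).mono (hell j).le)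
      obtain ⟨g9, g10⟩ := h.sub g5 g7
      refine ⟨g9, ?_⟩
      have e1 : (HahnSeries.C (cc F j) : HK F).coeff 0 = cc F j := by
        simp
      rw [g10, g6, g4, g8, g2, low_four (hell j).le 0 (hell j), map_zero, sub_zero, e1])
  obtain ⟨h5, h6⟩ := h.mul _ _ h1 h3
  exact ⟨h5, by rw [h6, h2, h4]⟩

theorem Ed_Ep {a b s : ℝ} (ha : 0 < a) (hb : 0 < b) (hs : 0 < s) :
    Ed (F := F) (Mc a b s 0) (Ep a 0) (PowerSeries.C (R := F)) where
  add x y hx hy := ⟨hx.add hy, Ep_add _ _ _ _⟩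
  mul x y hx hy := by
    have h1 := hx.mul hy
    have h2 := Ep_mul ha hb hs hx hy
    rw [add_zero] at h1 h2
    exact ⟨h1, h2⟩
  inc k hk := ⟨Mc.incl hk, Ep_incl ha k⟩

theorem Ed_Em {a b s : ℝ} (ha : 0 < a) (hb : 0 < b) (hs : 0 < s) :
    Ed (F := F) (Mc a b s 0) (Em b 0) (PowerSeries.C (R := F)) where
  add x y hx hy := ⟨hx.add hy, Em_add _ _ _ _⟩
  mul x y hx hy := by
    have h1 := hx.mul hy
    have h2 := Em_mul ha hb hs hx hy
    rw [add_zero] at h1 h2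
    exact ⟨h1, h2⟩
  inc k hk := ⟨Mc.incl hk, Em_incl hb k⟩

theorem incl_coeff (k : HK F) (n : ℝ) :
    (incl k).coeff n = algebraMap F (Lau F) (k.coeff n) := rfl

theorem Ed_co : Ed (F := F) (fun x => Low x 0) (fun x => x.coeff 0) (algebraMap F (Lau F)) where
  add x y hx hy := ⟨hx.add hy, rfl⟩
  mul x y hx hy := by
    have h1 := hx.mul hy
    have h2 := hx.coeff_mul hy
    rw [add_zero] at h1 h2
    exact ⟨h1, h2⟩
  inc k hk := ⟨Low.incl hk, incl_coeff k 0⟩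

theorem orderTop_pos' {x : HR F} (h : Low x 0) (h0 : x.coeff 0 = 0) : 0 < x.orderTop := by
  by_cases hx : x = 0
  · subst hx
    simp
  · rw [← HahnSeries.order_eq_orderTop_of_ne_zero hx]
    have h1 : x.coeff x.order ≠ 0 := HahnSeries.coeff_order_eq_zero.not.2 hx
    have h2 : 0 ≤ x.order := by
      by_contra h3
      exact h1 (h _ (not_le.1 h3))
    have h4 : x.order ≠ 0 := fun h5 => h1 (by rw [h5]; exact h0)
    have h3 : (0 : ℝ) < x.order := lt_of_le_of_ne h2 h4.symm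
    exact_mod_cast h3

theorem tz_incl (l : ℝ) : tz F l 0 0 = incl (HahnSeries.single l (1 : F)) := by
  classical
  apply cf_ext
  intro n i j
  rw [cf_tz, cf_incl]
  by_cases h : n = l
  · subst h
    simp
  · rw [HahnSeries.coeff_single_of_ne h, if_neg (fun h1 => h h1.1)]
    simp

end gen

section node
variable {F : Type} [Field F] [CharZero F]

theorem cc_sub_ne {r : ℕ} {i j : Fin r} (h : i ≠ j) : cc F i - cc F j ≠ 0 := by
  unfold cc
  have h1 : (((i : ℕ) : F) + 2) ^ 2 - 1 - ((((j : ℕ) : F) + 2) ^ 2 - 1) =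
      (((i : ℕ) : F) - ((j : ℕ) : F)) * (((i + j + 4 : ℕ)) : F) := by
    push_cast; ring
  rw [h1]
  refine mul_ne_zero ?_ ?_
  · rw [sub_ne_zero]
    intro h2
    exact h (Fin.ext (by exact_mod_cast h2))
  · exact_mod_cast (by omega : (i : ℕ) + j + 4 ≠ 0)

theorem cc_ne {r : ℕ} (i : Fin r) : cc F i ≠ 0 := by
  unfold cc
  have h1 : (((i : ℕ) : F) + 2) ^ 2 - 1 = (((i + 1 : ℕ)) : F) * (((i + 3 : ℕ)) : F) := by
    push_cast; ring
  rw [h1]
  refine mul_ne_zero ?_ ?_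
  · exact_mod_cast (by omega : (i : ℕ) + 1 ≠ 0)
  · exact_mod_cast (by omega : (i : ℕ) + 3 ≠ 0)

/-- the tube at the node `i` -/
theorem exists_tube {F : Type} [Field F] [CharZero F] {r : ℕ} {ell : Fin r → ℝ}
    (hell : ∀ i, 0 < ell i) {κ : ℝ} (i : Fin r) {a b : ℝ} (ha : 0 < a) (hb : 0 < b)
    (hab : a + b = ell i) (hκ : 2 * ell i < κ) :
    ∃ xx yy U : HR F, Tb (RR F ell) (Rb F r) a b (κ - ell i) κ (cc F i) xx yy U := by
  classical
  obtain ⟨s, hs⟩ : ∃ s : ℝ, s = κ - ell i := ⟨_, rfl⟩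
  rw [← hs]
  have hli := hell i
  have hs0 : 0 < s := by linarith
  obtain ⟨c, hc⟩ : ∃ c : F, c = cc F i := ⟨_, rfl⟩
  obtain ⟨k, hk⟩ : ∃ k : F, k = (((i : ℕ) : F) + 2) *
    ∏ j ∈ Finset.univ.erase i, (cc F i - cc F j) := ⟨_, rfl⟩
  have hk0 : k ≠ 0 := by
    rw [hk]
    refine mul_ne_zero ?_ (Finset.prod_ne_zero_iff.2 fun j hj =>
      cc_sub_ne (Finset.ne_of_mem_erase hj).symm)
    exact_mod_cast (by omega : (i : ℕ) + 2 ≠ 0)
  have hkk : k ^ 2 = (1 + c) * ∏ j ∈ Finset.univ.erase i, (c - cc F j) ^ 2 := by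
    rw [hk, mul_pow, ← Finset.prod_pow, hc]
    congr 1
    unfold cc; ring
  -- the coordinate x
  obtain ⟨x0, hx0⟩ : ∃ x0 : HR F, x0 = xx F a b s := ⟨_, rfl⟩
  obtain ⟨X1, hX1⟩ : ∃ X1 : HR F, X1 = incl (HahnSeries.C c) + x0 := ⟨_, rfl⟩
  have hcC : (HahnSeries.C c : HK F).coeff 0 = c := by simp
  have hlow0 : Low x0 (min a b) := by rw [hx0]; exact low_xx F ha hb hs0
  have hmin : 0 < min a b := lt_min ha hb
  have hMx : Mc a b s 0 X1 := by
    rw [hX1, hx0]; exact (Mc.incl (low_C c)).add (Mc_xx F ha hb hs0)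
  have hLx : Low X1 0 := by
    rw [hX1]; exact (Low.incl (low_C c)).add (hlow0.mono hmin.le)
  have hpx : Ep a 0 X1 = PowerSeries.C c + PowerSeries.X := by
    rw [hX1, Ep_add, Ep_incl ha, hx0, Ep_xx F ha, hcC]
  have hmx : Em b 0 X1 = PowerSeries.C c + PowerSeries.X := by
    rw [hX1, Em_add, Em_incl hb, hx0, Em_xx F, hcC]
  have hcx : X1.coeff 0 = algebraMap F (Lau F) c := by
    rw [hX1, HahnSeries.coeff_add, incl_coeff, hlow0 0 hmin, add_zero, hcC]
  -- the cofactor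
  obtain ⟨C0, hC0⟩ : ∃ C0 : HR F, C0 = cof ell i X1 := ⟨_, rfl⟩
  obtain ⟨g1, g2⟩ := cof_E (Ed_Ep ha hb hs0) hell i hMx
  obtain ⟨-, g3⟩ := cof_E (Ed_Em ha hb hs0) hell i hMx
  obtain ⟨g4, g5⟩ := cof_E (Ed_co (F := F)) hell i hLx
  rw [← hC0] at g1 g2 g3 g4
  rw [← hC0, hcx] at g5
  rw [hpx] at g2
  rw [hmx] at g3
  have g6 : C0.coeff 0 = algebraMap F (Lau F) (k ^ 2) := by
    rw [g5, hkk, map_mul, map_add, map_one, map_prod]
    simp only [map_pow, map_sub]
  -- the reduction of the cofactor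
  obtain ⟨S, hS⟩ : ∃ S : PowerSeries F, S = (1 + (PowerSeries.C c + PowerSeries.X)) *
    ∏ j ∈ Finset.univ.erase i, (PowerSeries.C c + PowerSeries.X - PowerSeries.C (cc F j)) ^ 2 :=
    ⟨_, rfl⟩
  rw [← hS] at g2 g3
  have hRb : phi c (Rb F r) = S * PowerSeries.X ^ 2 := by
    unfold Rb phi
    rw [map_mul, map_prod, ← Finset.mul_prod_erase _ _ (Finset.mem_univ i), hS]
    simp only [Polynomial.coe_eval₂RingHom, Polynomial.eval₂_add, Polynomial.eval₂_sub,
      Polynomial.eval₂_one, Polynomial.eval₂_X, Polynomial.eval₂_C, Polynomial.eval₂_pow]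
    rw [← hc]
    ring
  -- the square root of the cofactor
  obtain ⟨w, hw⟩ : ∃ w : HR F, w = incl (HahnSeries.C ((k ^ 2)⁻¹)) * C0 - 1 := ⟨_, rfl⟩
  have hMw : Mc a b s 0 w := by
    have h1 := (Mc.incl (a := a) (b := b) (s := s) (low_C ((k ^ 2)⁻¹))).mul g1
    rw [add_zero] at h1
    rw [hw]; exact h1.sub Mc.one
  have hLw : Low w 0 := by
    have h1 := (Low.incl (low_C ((k ^ 2)⁻¹))).mul g4
    rw [add_zero] at h1
    rw [hw]; exact h1.sub low_one
  have hk2 : (HahnSeries.C ((k ^ 2)⁻¹) : HK F).coeff 0 = (k ^ 2)⁻¹ := by simp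
  have hk1 : (HahnSeries.C k : HK F).coeff 0 = k := by simp
  have hw0 : w.coeff 0 = 0 := by
    have h1 := (Low.incl (low_C ((k ^ 2)⁻¹))).coeff_mul g4
    rw [add_zero] at h1
    rw [hw, HahnSeries.coeff_sub, h1, incl_coeff, hk2, g6, ← map_mul,
      inv_mul_cancel₀ (pow_ne_zero 2 hk0), map_one, HahnSeries.coeff_one, if_pos rfl, sub_self]
  have hwp := orderTop_pos' hLw hw0
  obtain ⟨ρ, hρ⟩ : ∃ ρ : HR F, ρ = incl (HahnSeries.C k) * rt w := ⟨_, rfl⟩
  have hρ2 : ρ * ρ = C0 := by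
    have h1 := rt_mul hwp
    have h2 : (incl (HahnSeries.C k) * incl (HahnSeries.C k)) * incl (HahnSeries.C ((k ^ 2)⁻¹)) =
        (1 : HR F) := by
      rw [← map_mul, ← map_mul, ← map_mul, ← map_mul, ← sq, mul_inv_cancel₀ (pow_ne_zero 2 hk0),
        map_one, map_one]
    have h3 : ρ * ρ = (incl (HahnSeries.C k) * incl (HahnSeries.C k)) * (rt w * rt w) := by
      rw [hρ]; ring
    rw [h3, h1, hw]
    linear_combination C0 * h2
  have hMρ : Mc a b s 0 ρ := by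
    have h1 := (Mc.incl (a := a) (b := b) (s := s) (low_C k)).mul (rt_wedge hwp hMw)
    rw [add_zero] at h1
    rw [hρ]; exact h1
  have hcr := cf_rt w
  have c1 : PowerSeries.coeff 0 (Ep a 0 ρ) = k := by
    have h1 := ((Ed_Ep ha hb hs0).mul _ _ (Mc.incl (low_C k)) (rt_wedge hwp hMw)).2
    rw [Ep_incl ha, hk1, ← hρ] at h1
    rw [h1, PowerSeries.coeff_C_mul]
    simp only [Ep, PowerSeries.coeff_mk]
    have h2 : cf (rt w) (0 + a * ((0 : ℕ) : ℝ)) ((0 : ℕ) : ℤ) 0 = 1 := by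
      simpa using hcr
    rw [h2, mul_one]
  have c2 : PowerSeries.coeff 0 (Em b 0 ρ) = k := by
    have h1 := ((Ed_Em ha hb hs0).mul _ _ (Mc.incl (low_C k)) (rt_wedge hwp hMw)).2
    rw [Em_incl hb, hk1, ← hρ] at h1
    rw [h1, PowerSeries.coeff_C_mul]
    simp only [Em, PowerSeries.coeff_mk]
    have h2 : cf (rt w) (0 + b * ((0 : ℕ) : ℝ)) (-((0 : ℕ) : ℤ)) 0 = 1 := by
      simpa using hcr
    rw [h2, mul_one]
  have e1 : Ep a 0 ρ * Ep a 0 ρ = S := by
    rw [← ((Ed_Ep ha hb hs0).mul _ _ hMρ hMρ).2, hρ2, g2]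
  have e2 : Em b 0 ρ * Em b 0 ρ = S := by
    rw [← ((Ed_Em ha hb hs0).mul _ _ hMρ hMρ).2, hρ2, g3]
  have e3 : Em b 0 ρ = Ep a 0 ρ := by
    have h4 : (Em b 0 ρ - Ep a 0 ρ) * (Em b 0 ρ + Ep a 0 ρ) = 0 := by
      linear_combination e2 - e1
    rcases mul_eq_zero.1 h4 with h5 | h5
    · exact sub_eq_zero.1 h5
    · exfalso
      have h6 := congrArg (PowerSeries.coeff 0) h5
      rw [map_add, c1, c2, map_zero] at h6
      have h7 : (2 : F) * k = 0 := by linear_combination h6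
      rcases mul_eq_zero.1 h7 with h8 | h8
      · exact two_ne_zero h8
      · exact hk0 h8
  -- the coordinate y
  obtain ⟨P, hP⟩ : ∃ P : HR F, P = pP F a := ⟨_, rfl⟩
  obtain ⟨Q, hQ⟩ : ∃ Q : HR F, Q = pQ F b s := ⟨_, rfl⟩
  have hMP : Mc a b s 0 P := by rw [hP]; exact Mc_P F ha hb hs0
  have hMQ : Mc a b s 0 Q := by rw [hQ]; exact Mc_Q F ha hb hs0
  have hPQ : P * Q = tz F (ell i) 0 0 + tz F κ 0 1 := by
    rw [hP, hQ]
    unfold pP pQ
    rw [mul_add, tz_mul, tz_mul, hab, ← add_assoc, hab]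
    have h1 : ell i + s = κ := by rw [hs]; ring
    rw [h1]
    norm_num
  have hxPQ : x0 = P + Q := by rw [hx0, hP, hQ]; rfl
  have hev : evA X1 (RR F ell) = C0 * (x0 ^ 2 - 4 * tz F (ell i) 0 0) := by
    have h1 : evA X1 (RR F ell) = (1 + X1) * ∏ j, ((X1 - incl (HahnSeries.C (cc F j))) ^ 2 -
        incl (4 * HahnSeries.single (ell j) (1 : F))) := by
      unfold evA RR
      rw [Polynomial.eval₂_mul, Polynomial.eval₂_finsetProd]
      simp only [Polynomial.eval₂_add, Polynomial.eval₂_sub, Polynomial.eval₂_one,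
        Polynomial.eval₂_X, Polynomial.eval₂_C, Polynomial.eval₂_pow]
    rw [h1, ← Finset.mul_prod_erase _ _ (Finset.mem_univ i), hC0, ← hc]
    unfold cof
    have h2 : X1 - incl (HahnSeries.C c) = x0 := by rw [hX1]; ring
    rw [h2, map_mul, ← tz_incl, map_ofNat]
    ring
  refine ⟨X1, ρ * (Q - P), -4 * C0, ?_⟩
  refine
    { ha := ha
      hb := hb
      hs := hs0
      mx := hMx
      my := ?_
      ex := ?_
      em := ?_
      ey := ?_
      curve := ?_
      lowU := ?_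
      cU := ?_
      nx := ?_
      ny := ?_ }
  · have h1 := hMρ.mul (hMQ.sub hMP)
    rw [add_zero] at h1
    exact h1
  · rw [hpx, ← hc]
  · rw [hmx, ← hc]
  · refine ⟨Ep a 0 ρ * PowerSeries.X, ?_, ?_, ?_⟩
    · rw [← hc, hRb]
      linear_combination PowerSeries.X ^ 2 * e1
    · rw [((Ed_Ep ha hb hs0).mul _ _ hMρ (hMQ.sub hMP)).2, ((Ed_Ep ha hb hs0).sub hMQ hMP).2,
        hQ, hP, Ep_Q, Ep_P F ha]
      ring
    · rw [((Ed_Em ha hb hs0).mul _ _ hMρ (hMQ.sub hMP)).2, ((Ed_Em ha hb hs0).sub hMQ hMP).2,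
        hQ, hP, Em_Q, Em_P F, e3]
      ring
  · rw [hev]
    have h1 : (ρ * (Q - P)) ^ 2 = C0 * (Q - P) ^ 2 := by rw [← hρ2]; ring
    rw [h1, hxPQ]
    linear_combination (-4 * C0) * hPQ
  · have h1 : (-4 : HR F) = incl (HahnSeries.C (-4 : F)) := by
      rw [map_neg, map_neg, map_ofNat, map_ofNat]
    rw [h1]
    have := (Low.incl (low_C (-4 : F))).mul g4
    rw [add_zero] at this
    exact this
  · refine ⟨-4 * k ^ 2, mul_ne_zero (by norm_num) (pow_ne_zero 2 hk0), ?_⟩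
    have h1 : (-4 : HR F) = incl (HahnSeries.C (-4 : F)) := by
      rw [map_neg, map_neg, map_ofNat, map_ofNat]
    rw [h1]
    have := (Low.incl (low_C (-4 : F))).coeff_mul g4
    rw [add_zero] at this
    have h4 : (HahnSeries.C (-4 : F) : HK F).coeff 0 = -4 := by simp
    rw [this, incl_coeff, h4, g6, map_mul]
  · intro x y hx hy h0
    have h1 := evp_coeff hx hy X1 0
    rw [h0, hcx, HahnSeries.coeff_zero, AlgHom.commutes] at h1
    have h2 : (algebraMap F F) c = c := rfl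
    rw [h2, hc] at h1
    exact cc_ne i h1.symm
  · intro x y hx hy
    rw [map_mul]
    refine mul_ne_zero ?_ ?_
    · intro h
      have h1 := congrArg (evp hx hy) hρ2
      rw [map_mul, h, zero_mul] at h1
      have h2 := evp_coeff hx hy C0 0
      rw [← h1, g6, HahnSeries.coeff_zero, AlgHom.commutes] at h2
      have h3 : (algebraMap F F) (k ^ 2) = k ^ 2 := rfl
      rw [h3] at h2
      exact pow_ne_zero 2 hk0 h2.symm
    · refine Van1.ne_of_coeff hx hy (a := b + s) (i := -1) (j := 1) ?_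
      have h1 : b + s ≠ a := by
        intro h; linarith
      have h2 : b + s ≠ b := by
        intro h; linarith
      rw [hP, hQ]
      unfold pP pQ
      rw [HahnSeries.coeff_sub, HahnSeries.coeff_add, coeff_tz, Van1.tz_coeff a _ _ _ h1,
        Van1.tz_coeff b _ _ _ h2, zero_add, sub_zero]

end node

end Pool.Agent.TH695.MN
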